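import Pool.Agent.H93.PC.Data

/-!
Packed tables of two binary operations on `H` (five bits per entry).
-/

namespace Pool.Agent.H93.PC

/-- Packed table of the binary operation `X`. -/
def tTX : ℕ := 0xef37dcf7acef37ddb3bdeb16b5a1072948209f9ce639cbb39ce72ece72ec5ad6841ca5294a7df37ddef6cdf37bdb37beb16b5a107294a509fb7deafad33b7deb4cbeb4c4a5200002408440df338ce6ecdf339bb33bbb16b4a107294a529fbcde338d33bcde34cc634c5ad6841ca410827edf7abeaecedf7abb2f7bb12950000214810818c6318c65ad6b580c6300c6318c6318c6318cef37dcf776ad275ab3bdeb1694a0c6284210839ce639cbda94a528ce72ec5ad68318a529426df37dcefb69d273ab33beb1694a0c628842083bcdeb38d5ab49ca4cee34c5a528318a108420ef37aceaecad2728b317bb1694a000284210818c6318c6318c630108400c6318c6318c6320cef378cf6ecef33dbc1ef7b16b498e60886209fbcdeb78bb3bcde2f07b9cc5a9200002408820ef37aceaecef37abb1ee6b12948000084210818c6318c6318c6300c6300c6318c6318c6318c52d295ad2c5ad6b5b16b4b16b5a0e65ad6b5814b5296a5316b5ad2c5a92c529483994a529404ad295a92c5ad6b4b1294b1294a0e64a5294800802108331084210c3000c42108418a42088602007420cc318c6030e0030e739ce72906209c0801cc8330c63180c3000c318c6318a420886294a12942c294a52b0650b16a494a5294a529445290a4230a52102c1902c5a9242108421084194a428c8c294a50b0610b16a490642106418c45110a2230a52942c1102c5a9221084210842084a12882c294240c0610b16a49024084210840000008030063000c3800c00000000a418820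

/-- Packed table of the binary operation `W`. -/
def tTW : ℕ := 0xef37ddf76cef37deb3bdeb12a48000290820839ce6b9ce339ce738ce734c5a928398a420420df37bdef6cdf37bdb37bdb14a4800029062083badeb5ad33badeb50d6b4c4a5200008421020df37aceeecdf339bb33bbb16a4800009081083bcdeb78d33bcde34cee34c52920000a418820df37abeaecdf37abc377bb1294a0e6090840818c6318c65ad6b598c6318c6318c6318c6318cef37ddf776ad275ab3bdeb16a4a0c6290210839ce6b9ce5a94a528ce734c5a928318a421020df37bcef769d2739b33bdb16a4a0c629084083bcdeb38d5ab49ca4cee34c5a928318a408420ef37abeaecad2728b377bb1694a000290210818c6418c8318c631908418c6318c6318c6320cef37acf76cef33ddc1ef7b16a498e609062083bcdeb78bb3bcde2f07b9cc5a9200002409020eeb7abeaeceeb7abb1ee6b12948000084210818c6318c6318c6318c6318c6318c6318c6318c4ad495a92c5ad6b5b16b4b16a4a0e65ad6b5814a5254a4b14a5292c5292c529283994a529404a5294a52c4a5294b1294b1294a0e64a5294800800000431084210c3000c42108398a42082001c00000ec318c6030e0030e739ce6290620800600000330c63180c3000c318c6318a420820294a40942c294a52b0210b16a494a5290820948421084230842108c2102c5a92421084210242106420c8c090810b0610b16a490642106408c4111022230242042c1102c5a9221084420822084210842c084210c0210b16a48421084210840000000030000000c0000c00000000a418820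

end Pool.Agent.H93.PC
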