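import Pool.Agent.H93.PC.TM
import Pool.Agent.H93.PC.TP
import Pool.Agent.H93.PC.TB

/-!
The kernel checks the edge preservation of the binary tables and the identities of all tables.
-/

namespace Pool.Agent.H93.PC

theorem chkX : allE (fun a a' => force (row tTX a) fun R => force (row tTX a') fun R' =>
    allE (fun c c' => adjb (val R c) (val R' c')) edges) edges = true := by
  decide +kernel

theorem chkW : allE (fun a a' => force (row tTW a) fun R => force (row tTW a') fun R' =>
    allE (fun c c' => adjb (val R c) (val R' c')) edges) edges = true := by
  decide +kernel

theorem chkWX : allE (fun a a' => force (row tTW a) fun R => force (row tTX a') fun R' =>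
    allE (fun c c' => adjb (val R c) (val R' c')) edges) edges = true := by
  decide +kernel

theorem lawB : ∀ x y : Fin 30, val (row tTX x) x = x ∧ val (row tTW x) x = x ∧
    val (row tTW x) y = val (row tTW y) x ∧
    val (row tTW (val (row tTW x) y)) y = val (row tTW x) y ∧
    val (row tTX (val (row tTX x) y)) y = val (row tTX x) y := by
  decide +kernel

theorem lawM : ∀ x y : Fin 30, val (row (blk tTM x) x) y = x ∧ val (row (blk tTM x) y) x = x := by
  decide +kernel

theorem lawP : ∀ x y : Fin 30, val (row (blk tTP x) y) y = val (row (blk tTM x) y) y ∧
    val (row (blk tTP x) x) y = val (row tTX x) y := by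
  decide +kernel

end Pool.Agent.H93.PC
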