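import Pool.Agent.H93.PC.TP

/-!
The kernel checks that the table `TP` preserves the edges of `H`.
-/

namespace Pool.Agent.H93.PC

theorem chkP : allE (fun a a' => force (blk tTP a) fun A => force (blk tTP a') fun A' =>
    allE (fun b b' => force (row A b) fun R => force (row A' b') fun R' =>
      allE (fun c c' => adjb (val R c) (val R' c')) edges) edges) edges = true := by
  decide +kernel

end Pool.Agent.H93.PC
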