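import Mathlib

/-!
The digraph `H` with 30 vertices and 78 edges used for problem MP_ce9419_lc: edge list, adjacency
matrix as one number, lookups in packed tables, and quantifiers over the edge list that the kernel
evaluates fast.
-/

namespace Pool.Agent.H93.PC

/-- The 78 edges of the digraph `H`. -/
def edges : List (ℕ × ℕ) :=
  [(0, 1), (0, 2), (0, 3), (0, 4), (0, 5), (0, 12), (0, 16), (1, 9), (1, 10), (1, 11), (1, 12), (1, 16), (2, 9), (2, 11), (2, 12), (3, 10), (3, 11), (3, 12), (3, 16), (4, 9), (4, 10), (4, 11), (4, 12), (5, 11), (5, 12), (5, 22), (6, 2), (6, 3), (6, 4), (6, 5), (6, 12), (7, 2), (7, 5), (7, 12), (7, 16), (8, 5), (8, 12), (8, 22), (9, 0), (9, 6), (9, 7), (9, 8), (9, 12), (9, 16), (10, 0), (10, 6), (10, 7), (10, 8), (10, 12), (11, 6), (11, 7), (11, 8), (11, 12), (11, 22), (13, 14), (13, 15), (14, 15), (15, 16), (17, 18), (17, 21), (18, 19), (19, 20), (20, 22), (21, 20), (23, 12), (23, 24), (23, 29), (24, 12), (24, 25), (25, 12), (26, 12), (26, 25), (26, 27), (27, 12), (27, 28), (28, 12), (29, 12),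 (29, 28)]

/-- The adjacency matrix, row by row, as a number. -/
def adjNum : ℕ := 0x40004000000100040004000a0010000000400020010008400400000000000040000004000000040000000800000090000000000000004000000080000003000000000000100470000011c100044704040102000044090000103c010060000001e00000470000001a0000047800001103e

/-- Adjacency test. -/
def adjb (x y : ℕ) : Bool :=
  Nat.beq (Nat.mod (Nat.shiftRight adjNum (Nat.add (Nat.mul (nat_lit 30) x) y)) (nat_lit 2)) (nat_lit 1)

/-- Block of a packed ternary table with first argument `a`. -/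
def blk (t a : ℕ) : ℕ := Nat.mod (Nat.shiftRight t (Nat.mul (nat_lit 4500) a)) (Nat.pow (nat_lit 2) (nat_lit 4500))

/-- Row of a block. -/
def row (t b : ℕ) : ℕ := Nat.mod (Nat.shiftRight t (Nat.mul (nat_lit 150) b)) (Nat.pow (nat_lit 2) (nat_lit 150))

/-- Entry of a row. -/
def val (t c : ℕ) : ℕ := Nat.mod (Nat.mod (Nat.shiftRight t (Nat.mul (nat_lit 5) c)) (nat_lit 32)) (nat_lit 30)

/-- Evaluates its first argument before passing it on. -/
noncomputable def force (k : ℕ) (f : ℕ → Bool) : Bool :=
  Nat.rec (f Nat.zero) (fun j _ => f (Nat.succ j)) k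

theorem force_eq (k : ℕ) (f : ℕ → Bool) : force k f = f k := by
  cases k <;> rfl

/-- `p` holds for all members of the list. -/
noncomputable def allE (p : ℕ → ℕ → Bool) (l : List (ℕ × ℕ)) : Bool :=
  List.rec true (fun h _ ih => Bool.rec false ih (p h.1 h.2)) l

end Pool.Agent.H93.PC
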