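import Mathlib

/-!
Primitive positive constructions between digraphs (problem MP_ce9419_lc): primitive positive
formulas over the edge relation and equality, pp-powers of a digraph, homomorphic equivalence,
pp-constructions, and the product of the rational numbers (strict order) with a digraph.
-/

namespace Pool.Agent.H93.PC

/-- Primitive positive formulas over one binary relation symbol (the edge relation) and equality,
with free variables numbered `0, …, n - 1`: equalities and edges between variables, closed under
conjunction and existential quantification.  In `ex φ` the last variable of `φ` is quantified. -/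
inductive PP : ℕ → Type
  /-- the atomic formula `x_i = x_j` -/
  | eq {n : ℕ} (i j : Fin n) : PP n
  /-- the atomic formula `E (x_i, x_j)` -/
  | edge {n : ℕ} (i j : Fin n) : PP n
  /-- conjunction -/
  | conj {n : ℕ} (φ ψ : PP n) : PP n
  /-- existential quantification over the last variable -/
  | ex {n : ℕ} (φ : PP (n + 1)) : PP n

/-- Truth of a primitive positive formula in the digraph `G` under the assignment `v`. -/
def PP.Holds {B : Type} (G : Digraph B) : {n : ℕ} → PP n → (Fin n → B) → Prop
  | _, .eq i j, v => v i = v j
  | _, .edge i j, v => G.Adj (v i) (v j)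
  | _, .conj φ ψ, v => φ.Holds G v ∧ ψ.Holds G v
  | _, .ex φ, v => ∃ b : B, φ.Holds G (Fin.snoc v b)

/-- The `d`-th pp-power of `G` given by the formula `φ` in `2 d` free variables: the digraph on
`d`-tuples of vertices of `G` whose edges are the pairs `(x, y)` such that `φ (x, y)` holds. -/
def ppPower {B : Type} (G : Digraph B) (d : ℕ) (φ : PP (d + d)) : Digraph (Fin d → B) where
  Adj x y := φ.Holds G (Fin.append x y)

/-- `f` is a homomorphism of digraphs. -/
def IsHom {V W : Type} (G : Digraph V) (H : Digraph W) (f : V → W) : Prop :=
  ∀ x y, G.Adj x y → H.Adj (f x) (f y)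

/-- Homomorphic equivalence: there are homomorphisms in both directions. -/
def HomEquiv {V W : Type} (G : Digraph V) (H : Digraph W) : Prop :=
  (∃ f : V → W, IsHom G H f) ∧ (∃ f : W → V, IsHom H G f)

/-- `G` pp-constructs `H`: some pp-power of `G` (of dimension `d ≥ 1`) is homomorphically
equivalent to `H`. -/
def PPConstructs {V W : Type} (G : Digraph V) (H : Digraph W) : Prop :=
  ∃ (d : ℕ) (φ : PP (d + d)), 1 ≤ d ∧ HomEquiv H (ppPower G d φ)

/-- The product `ℚ × H` of the digraph `(ℚ, <)` with the digraph `H`. -/
def ratProd {V : Type} (H : Digraph V) : Digraph (ℚ × V) where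
  Adj p q := p.1 < q.1 ∧ H.Adj p.2 q.2

end Pool.Agent.H93.PC
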