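import Pool.Agent.H93.PC.Ops

/-!
Endomorphisms of `H` fix the vertices 9, 11, 16; the main implication between values of a
ternary polymorphism on the vertices 9, 10, 11.
-/

namespace Pool.Agent.H93.PC

/-- The only transitive triangle whose top has an out-neighbour is `13, 14, 15`, and the only
out-neighbour of its top is 16. -/
theorem tri : ∀ x y : Fin 30, H.Adj x y → ∀ z : Fin 30, H.Adj y z → H.Adj x z →
    ∀ w : Fin 30, H.Adj z w → w = 16 := by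
  decide +kernel

/-- The only walks `x0 x1 x2 x3`, `x0 x4 x3` such that `x3` has an out-neighbour `w` end in
`w = 22`. -/
theorem pent : ∀ x0 x1 : Fin 30, H.Adj x0 x1 → ∀ x2 : Fin 30, H.Adj x1 x2 → ∀ x3 : Fin 30,
    H.Adj x2 x3 → ∀ x4 : Fin 30, H.Adj x0 x4 → H.Adj x4 x3 → ∀ w : Fin 30, H.Adj x3 w →
      w = 22 := by
  decide +kernel

/-- The vertex 11 is the only in-neighbour of 22 with an out-neighbour that has the
out-neighbour 16. -/
theorem step11 : ∀ x : Fin 30, H.Adj x 22 → ∀ p : Fin 30, H.Adj x p → H.Adj p 16 → x = 11 := by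
  decide +kernel

theorem step7 : ∀ p : Fin 30, H.Adj 11 p → H.Adj p 16 → p = 7 := by
  decide +kernel

theorem step9 : ∀ q : Fin 30, H.Adj q 16 → H.Adj q 7 → q = 9 := by
  decide +kernel

theorem step3 : ∀ p : Fin 30, H.Adj 11 p → ∀ q : Fin 30, H.Adj p q → H.Adj q 16 → q = 3 := by
  decide +kernel

theorem stepr : ∀ q : Fin 30, H.Adj 7 q → ∀ r : Fin 30, H.Adj q r → H.Adj 3 r →
    ∀ s : Fin 30, H.Adj r s → r = 11 := by
  decide +kernel

/-- Every endomorphism of `H` fixes 9, 11 and 16. -/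
theorem endo {e : Fin 30 → Fin 30} (he : IsHom H H e) : e 9 = 9 ∧ e 11 = 11 ∧ e 16 = 16 := by
  have h16 : e 16 = 16 := by
    refine tri (e 13) (e 14) (he _ _ ?_) (e 15) (he _ _ ?_) (he _ _ ?_) _ (he _ _ ?_) <;> decide +kernel
  have h22 : e 22 = 22 := by
    refine pent (e 17) (e 18) (he _ _ ?_) (e 19) (he _ _ ?_) (e 20) (he _ _ ?_) (e 21) (he _ _ ?_)
      (he _ _ ?_) _ (he _ _ ?_) <;> decide +kernel
  have a1 : H.Adj (e 11) (e 22) := he _ _ (by decide +kernel)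
  have a2 : H.Adj (e 11) (e 7) := he _ _ (by decide +kernel)
  have a3 : H.Adj (e 7) (e 16) := he _ _ (by decide +kernel)
  have a4 : H.Adj (e 9) (e 16) := he _ _ (by decide +kernel)
  have a5 : H.Adj (e 9) (e 7) := he _ _ (by decide +kernel)
  rw [h22] at a1
  rw [h16] at a3 a4
  have h11 : e 11 = 11 := step11 _ a1 _ a2 a3
  rw [h11] at a2
  have h7 : e 7 = 7 := step7 _ a2 a3
  rw [h7] at a5
  exact ⟨step9 _ a4 a5, h11, h16⟩

/-- Possible entries: the vertices 9, 10, 11. -/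
def K (x : Fin 30) : Prop := x = 9 ∨ x = 10 ∨ x = 11

instance : DecidablePred K := fun x => inferInstanceAs (Decidable (x = 9 ∨ x = 10 ∨ x = 11))

theorem w1 : ∀ x : Fin 30, K x → H.Adj x (if x = 11 then 7 else 0) := by decide +kernel

theorem w2 : ∀ x : Fin 30, K x → H.Adj (if x = 11 then 7 else 0) 16 := by decide +kernel

theorem w3 : ∀ x : Fin 30, K x → H.Adj (if x = 11 then 7 else 0) (if x = 11 then 2 else 1) := by
  decide +kernel

theorem w4 : ∀ x z : Fin 30, K x → K z → (x = 11 → z ≠ 10) →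
    H.Adj (if x = 11 then 2 else 1) z := by
  decide +kernel

theorem v1 : ∀ x : Fin 30, K x → H.Adj x (if x = 11 then 6 else 0) := by decide +kernel

theorem v2 : ∀ x : Fin 30, K x → H.Adj (if x = 11 then 6 else 0) (if x = 11 then 3 else 1) := by
  decide +kernel

theorem v3 : ∀ x : Fin 30, K x → H.Adj (if x = 11 then 3 else 1) 16 := by decide +kernel

theorem v4 : ∀ x z : Fin 30, K x → K z → (x = 11 → z ≠ 9) →
    H.Adj (if x = 11 then 3 else 1) z := by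
  decide +kernel

theorem v5 : ∀ x : Fin 30, K x → H.Adj x 7 := by decide +kernel

/-- The main implication. -/
theorem meet {F : Fin 30 → Fin 30 → Fin 30 → Fin 30} (hF : Poly3 H F) (h16 : F 16 16 16 = 16)
    {x1 x2 x3 y1 y2 y3 z1 z2 z3 : Fin 30} (hx : F x1 x2 x3 = 11) (hy : F y1 y2 y3 = 11)
    (kx1 : K x1) (kx2 : K x2) (kx3 : K x3) (ky1 : K y1) (ky2 : K y2) (ky3 : K y3)
    (kz1 : K z1) (kz2 : K z2) (kz3 : K z3)
    (a1 : x1 = 11 → z1 ≠ 10) (a2 : x2 = 11 → z2 ≠ 10) (a3 : x3 = 11 → z3 ≠ 10)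
    (b1 : y1 = 11 → z1 ≠ 9) (b2 : y2 = 11 → z2 ≠ 9) (b3 : y3 = 11 → z3 ≠ 9) :
    F z1 z2 z3 = 11 := by
  have c1 := hF _ _ _ _ _ _ (w1 _ kx1) (w1 _ kx2) (w1 _ kx3)
  have c2 := hF _ _ _ _ _ _ (w2 _ kx1) (w2 _ kx2) (w2 _ kx3)
  have c3 := hF _ _ _ _ _ _ (w3 _ kx1) (w3 _ kx2) (w3 _ kx3)
  have c4 := hF _ _ _ _ _ _ (w4 _ _ kx1 kz1 a1) (w4 _ _ kx2 kz2 a2) (w4 _ _ kx3 kz3 a3)
  have d1 := hF _ _ _ _ _ _ (v1 _ ky1) (v1 _ ky2) (v1 _ ky3)
  have d2 := hF _ _ _ _ _ _ (v2 _ ky1) (v2 _ ky2) (v2 _ ky3)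
  have d3 := hF _ _ _ _ _ _ (v3 _ ky1) (v3 _ ky2) (v3 _ ky3)
  have d4 := hF _ _ _ _ _ _ (v4 _ _ ky1 kz1 b1) (v4 _ _ ky2 kz2 b2) (v4 _ _ ky3 kz3 b3)
  have d5 := hF _ _ _ _ _ _ (v5 _ kz1) (v5 _ kz2) (v5 _ kz3)
  rw [hx] at c1
  rw [h16] at c2
  rw [hy] at d1
  rw [h16] at d3
  rw [step7 _ c1 c2] at c3
  rw [step3 _ d1 _ d2 d3] at d4
  exact stepr _ c3 _ c4 d4 _ d5

end Pool.Agent.H93.PC
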