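import Pool.Agent.H93.PC.Facts

/-!
The product `ℚ × H` does not pp-construct `H`.
-/

namespace Pool.Agent.H93.PC

/-- Vertices of the product. -/
abbrev B : Type := ℚ × Fin 30

/-- The operation `m` of the product. -/
def mB (a b c : B) : B := (min a.1 (max b.1 c.1), opM a.2 b.2 c.2)

/-- The operation `P` of the product. -/
def pB (a b c : B) : B := (min a.1 (min b.1 c.1), opP a.2 b.2 c.2)

/-- The operation of `H` used by `tB t` at level `l`. -/
def lev (t l : ℚ) (x y z : Fin 30) : Fin 30 :=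
  if l < t then opW (opW x y) z
  else if l = t then (if x = y then opW (opW x y) z else opX (opX x y) z)
  else opX (opX x y) z

/-- The operation with threshold `t` of the product. -/
def tB (t : ℚ) (a b c : B) : B :=
  (min a.1 (min b.1 c.1), lev t (min a.1 (min b.1 c.1)) a.2 b.2 c.2)

theorem min3_lt {a a' b b' c c' : ℚ} (h1 : a < a') (h2 : b < b') (h3 : c < c') :
    min a (min b c) < min a' (min b' c') :=
  min_lt_min h1 (min_lt_min h2 h3)

theorem poly_mB : Poly3 (ratProd H) mB := by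
  rintro a a' b b' c c' ⟨h1, k1⟩ ⟨h2, k2⟩ ⟨h3, k3⟩
  exact ⟨min_lt_min h1 (max_lt_max h2 h3), polyM _ _ _ _ _ _ k1 k2 k3⟩

theorem poly_pB : Poly3 (ratProd H) pB := by
  rintro a a' b b' c c' ⟨h1, k1⟩ ⟨h2, k2⟩ ⟨h3, k3⟩
  exact ⟨min3_lt h1 h2 h3, polyP _ _ _ _ _ _ k1 k2 k3⟩

theorem poly_tB (t : ℚ) : Poly3 (ratProd H) (tB t) := by
  rintro a a' b b' c c' ⟨h1, k1⟩ ⟨h2, k2⟩ ⟨h3, k3⟩
  have hl := min3_lt h1 h2 h3
  refine ⟨hl, ?_⟩
  have hWW : H.Adj (opW (opW a.2 b.2) c.2) (opW (opW a'.2 b'.2) c'.2) := polyW (polyW k1 k2) k3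
  have hWX : H.Adj (opW (opW a.2 b.2) c.2) (opX (opX a'.2 b'.2) c'.2) := polyWX (polyWX k1 k2) k3
  have hXX : H.Adj (opX (opX a.2 b.2) c.2) (opX (opX a'.2 b'.2) c'.2) := polyX (polyX k1 k2) k3
  show H.Adj (lev t (min a.1 (min b.1 c.1)) a.2 b.2 c.2)
    (lev t (min a'.1 (min b'.1 c'.1)) a'.2 b'.2 c'.2)
  generalize min a.1 (min b.1 c.1) = l at hl ⊢
  generalize min a'.1 (min b'.1 c'.1) = l' at hl ⊢
  unfold lev
  by_cases c1 : l < t
  · rw [if_pos c1]
    split_ifs <;> assumption
  · rw [if_neg c1]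
    have c2 : ¬ l' < t := fun hh => c1 (lt_trans hl hh)
    have c3 : ¬ l' = t := fun hh => c1 (hh ▸ hl)
    rw [if_neg c2, if_neg c3]
    split_ifs <;> assumption

theorem mB_xxy (a b : B) : mB a a b = a := by
  ext1
  · show min a.1 (max a.1 b.1) = a.1
    exact min_eq_left (le_max_left _ _)
  · exact M_xxy _ _

theorem mB_xyx (a b : B) : mB a b a = a := by
  ext1
  · show min a.1 (max b.1 a.1) = a.1
    exact min_eq_left (le_max_right _ _)
  · exact M_xyx _ _

theorem pB_xyy (a b : B) : pB a b b = mB a b b := by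
  ext1
  · show min a.1 (min b.1 b.1) = min a.1 (max b.1 b.1)
    rw [min_self, max_self]
  · exact P_xyy _ _

theorem pB_xxy (a b : B) : pB a a b = (min a.1 b.1, opX a.2 b.2) := by
  ext1
  · show min a.1 (min a.1 b.1) = min a.1 b.1
    rw [← min_assoc, min_self]
  · exact P_xxy _ _

theorem tB_xyy (t : ℚ) (a b : B) :
    tB t a b b = (min a.1 b.1, if min a.1 b.1 < t then opW a.2 b.2 else opX a.2 b.2) := by
  ext1
  · show min a.1 (min b.1 b.1) = min a.1 b.1
    rw [min_self]
  · show lev t (min a.1 (min b.1 b.1)) a.2 b.2 b.2 = _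
    rw [min_self]
    unfold lev
    rw [W_law, X_law]
    by_cases h : min a.1 b.1 < t
    · simp only [if_pos h]
    · simp only [if_neg h]
      by_cases h2 : a.2 = b.2
      · simp only [h2, W_self, X_self, ite_self]
      · simp only [if_neg h2, ite_self]

theorem tB_xxy (t : ℚ) (a b : B) :
    tB t a a b = (min a.1 b.1, if min a.1 b.1 ≤ t then opW a.2 b.2 else opX a.2 b.2) := by
  ext1
  · show min a.1 (min a.1 b.1) = min a.1 b.1
    rw [← min_assoc, min_self]
  · show lev t (min a.1 (min a.1 b.1)) a.2 a.2 b.2 = _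
    rw [← min_assoc, min_self]
    unfold lev
    rw [W_self, X_self]
    by_cases h : min a.1 b.1 < t
    · simp only [if_pos h, if_pos h.le]
    · by_cases h2 : min a.1 b.1 = t
      · simp only [h2, lt_irrefl, le_refl, if_true, if_false]
      · have h3 : ¬ min a.1 b.1 ≤ t := fun hh => h (lt_of_le_of_ne hh h2)
        simp only [if_neg h, if_neg h2, if_neg h3]

/-- If some level is below `t` there is a largest one among them. -/
theorem exists_max {d : ℕ} (l : Fin d → ℚ) (t : ℚ) (h : ∃ i, l i < t) :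
    ∃ s, (∀ i, l i < t ↔ l i ≤ s) ∧
      (Finset.univ.filter fun i => l i < s).card < (Finset.univ.filter fun i => l i < t).card := by
  obtain ⟨i0, h0⟩ := h
  obtain ⟨i, hi, hmax⟩ := (Finset.univ.filter fun i => l i < t).exists_max_image l
    ⟨i0, by simp [h0]⟩
  have hi' : l i < t := by simpa using hi
  refine ⟨l i, fun j => ⟨fun hj => hmax j (by simp [hj]), fun hj => lt_of_le_of_lt hj hi'⟩, ?_⟩
  refine Finset.card_lt_card ⟨fun j hj => ?_, fun hsub => ?_⟩
  · have hj' : l j < l i := by simpa using hj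
    simp [lt_trans hj' hi']
  · have := hsub hi
    simp at this

/-- The product `ℚ × H` does not pp-construct `H`. -/
theorem main : ¬ PPConstructs (ratProd H) H := by
  rintro ⟨d, φ, -, ⟨h, hh⟩, ⟨g, hg⟩⟩
  have hhat : ∀ f, Poly3 (ratProd H) f → Poly3 H (hat h g f) := fun f hf => hf.hat φ hh hg
  have he : IsHom H H (fun x => g (h x)) := fun x y hxy => hg _ _ (hh _ _ hxy)
  obtain ⟨e9', e11', e16'⟩ := endo he
  have e9 : g (h 9) = 9 := e9'
  have e11 : g (h 11) = 11 := e11'
  have e16 : g (h 16) = 16 := e16'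
  have k9 : K 9 := Or.inl rfl
  have k10 : K 10 := Or.inr (Or.inl rfl)
  have k11 : K 11 := Or.inr (Or.inr rfl)
  have n1 : (9 : Fin 30) ≠ 10 := by decide
  have n2 : (11 : Fin 30) ≠ 10 := by decide
  have n3 : (11 : Fin 30) ≠ 9 := by decide
  have n4 : (9 : Fin 30) ≠ 11 := by decide
  have n5 : (10 : Fin 30) ≠ 11 := by decide
  have n6 : (10 : Fin 30) ≠ 9 := by decide
  -- an operation with value 11 at `(11, 9, 9)` has value 11 at `(11, 11, 9)`
  have up : ∀ {F : Fin 30 → Fin 30 → Fin 30 → Fin 30}, Poly3 H F → F 16 16 16 = 16 →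
      F 11 9 9 = 11 → F 11 11 9 = 11 := by
    intro F hF h16 hv
    exact meet hF h16 hv hv k11 k9 k9 k11 k9 k9 k11 k11 k9
      (fun _ => n2) (fun hc => absurd hc n4) (fun hc => absurd hc n4)
      (fun _ => n3) (fun hc => absurd hc n4) (fun hc => absurd hc n4)
  have idem : ∀ f : B → B → B → B, (∀ a, f a a a = a) → hat h g f 16 16 16 = 16 := by
    intro f hf
    simp only [hat, hf]
    exact e16
  -- the levels
  obtain ⟨l, hl⟩ : ∃ l : Fin d → ℚ, l = fun i => min (h 11 i).1 (h 9 i).1 := ⟨_, rfl⟩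
  have hl' : ∀ i, min (h 9 i).1 (h 11 i).1 = l i := fun i => by rw [hl]; exact min_comm _ _
  have hl'' : ∀ i, min (h 11 i).1 (h 9 i).1 = l i := fun i => by rw [hl]
  -- the operation m
  have Mp := hhat _ poly_mB
  have M16 : hat h g mB 16 16 16 = 16 := idem _ (fun a => mB_xxy a a)
  have M1 : hat h g mB 11 11 9 = 11 := by
    simp only [hat, mB_xxy]; exact e11
  have M2 : hat h g mB 11 9 11 = 11 := by
    simp only [hat, mB_xyx]; exact e11
  have M3 : hat h g mB 11 9 10 = 11 :=
    meet Mp M16 M1 M2 k11 k11 k9 k11 k9 k11 k11 k9 k10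
      (fun _ => n2) (fun _ => n1) (fun hc => absurd hc n4)
      (fun _ => n3) (fun hc => absurd hc n4) (fun _ => n6)
  have M4 : hat h g mB 11 9 9 = 11 :=
    meet Mp M16 M3 M3 k11 k9 k10 k11 k9 k10 k11 k9 k9
      (fun _ => n2) (fun hc => absurd hc n4) (fun hc => absurd hc n5)
      (fun _ => n3) (fun hc => absurd hc n4) (fun hc => absurd hc n5)
  -- the operation P
  have Pp := hhat _ poly_pB
  have P16 : hat h g pB 16 16 16 = 16 := idem _ (fun a => by rw [pB_xyy, mB_xxy])
  have P1 : hat h g pB 11 9 9 = 11 := by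
    refine Eq.trans ?_ M4
    simp only [hat, pB_xyy]
  have P2 := up Pp P16 P1
  have X1 : g (fun i => (l i, opX (h 11 i).2 (h 9 i).2)) = 11 := by
    refine Eq.trans ?_ P2
    simp only [hat, pB_xxy, hl'']
  -- the thresholds, first half
  have Tid : ∀ t, hat h g (tB t) 16 16 16 = 16 := fun t => idem _ (fun a => by
    rw [tB_xyy, min_self, W_self, X_self, ite_self])
  have up1 : ∀ (k : ℕ) (t : ℚ), (Finset.univ.filter fun i => l i < t).card = k →
      g (fun i => (l i, if l i < t then opW (h 11 i).2 (h 9 i).2 else opX (h 11 i).2 (h 9 i).2))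
        = 11 := by
    intro k
    induction k using Nat.strong_induction_on with
    | _ k ih =>
      intro t ht
      by_cases hex : ∃ i, l i < t
      · obtain ⟨s, hs, hc⟩ := exists_max l t hex
        have h1 := ih _ (ht ▸ hc) s rfl
        have h2 : hat h g (tB s) 11 9 9 = 11 := by
          refine Eq.trans ?_ h1
          simp only [hat, tB_xyy, hl'']
        have h3 := up (hhat _ (poly_tB s)) (Tid s) h2
        refine Eq.trans ?_ h3
        simp only [hat, tB_xxy, hl'', hs]
      · refine Eq.trans ?_ X1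
        congr 1
        funext i
        rw [if_neg (fun hc => hex ⟨i, hc⟩)]
  -- above all levels
  obtain ⟨T, hT⟩ : ∃ T : ℚ, ∀ i, l i < T := by
    obtain ⟨M, hM⟩ := (Finset.univ.image l).bddAbove
    exact ⟨M + 1, fun i => lt_of_le_of_lt (hM (by simp)) (by linarith)⟩
  have W1 := up1 _ T rfl
  have W2 : g (fun i => (l i, if l i < T then opW (h 9 i).2 (h 11 i).2
      else opX (h 9 i).2 (h 11 i).2)) = 11 := by
    refine Eq.trans ?_ W1
    congr 1
    funext i
    rw [if_pos (hT i), if_pos (hT i), W_comm]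
  -- the reversed operations
  have rev : ∀ {F : Fin 30 → Fin 30 → Fin 30 → Fin 30}, Poly3 H F → F 16 16 16 = 16 →
      F 9 9 11 = 11 → F 9 11 11 = 11 := by
    intro F hF h16 hv
    exact up (F := fun x y z => F z y x)
      (fun a a' b b' c c' h1 h2 h3 => hF _ _ _ _ _ _ h3 h2 h1) h16 hv
  have down : ∀ (k : ℕ) (t : ℚ), (Finset.univ.filter fun i => l i < t).card = k →
      g (fun i => (l i, if l i < t then opW (h 9 i).2 (h 11 i).2 else opX (h 9 i).2 (h 11 i).2))
        = 11 → g (fun i => (l i, opX (h 9 i).2 (h 11 i).2)) = 11 := by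
    intro k
    induction k using Nat.strong_induction_on with
    | _ k ih =>
      intro t ht hv
      by_cases hex : ∃ i, l i < t
      · obtain ⟨s, hs, hc⟩ := exists_max l t hex
        refine ih _ (ht ▸ hc) s rfl ?_
        have h2 : hat h g (tB s) 9 9 11 = 11 := by
          refine Eq.trans ?_ hv
          simp only [hat, tB_xxy, hl', hs]
        have h3 := rev (hhat _ (poly_tB s)) (Tid s) h2
        refine Eq.trans ?_ h3
        simp only [hat, tB_xyy, hl']
      · refine Eq.trans ?_ hv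
        congr 1
        funext i
        rw [if_neg (fun hc => hex ⟨i, hc⟩)]
  have X2 := down _ T rfl W2
  have P3 : hat h g pB 9 9 11 = 11 := by
    refine Eq.trans ?_ X2
    simp only [hat, pB_xxy, hl']
  have P4 := rev Pp P16 P3
  have M5 : hat h g mB 9 11 11 = 11 := by
    refine Eq.trans ?_ P4
    simp only [hat, pB_xyy]
  -- contradiction for m
  have M6 : hat h g mB 9 10 10 = 11 :=
    meet Mp M16 M4 M5 k11 k9 k9 k9 k11 k11 k9 k10 k10
      (fun _ => n1) (fun hc => absurd hc n4) (fun hc => absurd hc n4)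
      (fun hc => absurd hc n4) (fun _ => n6) (fun _ => n6)
  have M7 : hat h g mB 9 9 9 = 11 :=
    meet Mp M16 M6 M6 k9 k10 k10 k9 k10 k10 k9 k9 k9
      (fun hc => absurd hc n4) (fun hc => absurd hc n5) (fun hc => absurd hc n5)
      (fun hc => absurd hc n4) (fun hc => absurd hc n5) (fun hc => absurd hc n5)
  have M8 : hat h g mB 9 9 9 = 9 := by
    simp only [hat, mB_xxy]; exact e9
  exact n4 (M8.symm.trans M7)

end Pool.Agent.H93.PC
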