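import Pool.Agent.H93.PC.Pres
import Pool.Agent.H93.PC.CM
import Pool.Agent.H93.PC.CP
import Pool.Agent.H93.PC.CB

/-!
The digraph `H` on 30 vertices and its operations `m`, `P`, `X`, `W`.
-/

namespace Pool.Agent.H93.PC

/-- The digraph with 30 vertices and 78 edges. -/
def H : Digraph (Fin 30) where
  Adj x y := adjb x y = true

instance : DecidableRel H.Adj := fun x y => inferInstanceAs (Decidable (adjb x y = true))

theorem mem_edges : ∀ x y : Fin 30, adjb x y = true → ((x : ℕ), (y : ℕ)) ∈ edges := by
  decide +kernel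

theorem allE_spec {p : ℕ → ℕ → Bool} {l : List (ℕ × ℕ)} (h : allE p l = true) :
    ∀ x ∈ l, p x.1 x.2 = true := by
  induction l with
  | nil => simp
  | cons a l ih =>
    have hc : allE p (a :: l) = (Bool.rec false (allE p l) (p a.1 a.2) : Bool) := rfl
    rw [hc] at h
    intro x hx
    cases hp : p a.1 a.2 with
    | false => rw [hp] at h; exact absurd h (by simp)
    | true =>
      rw [hp] at h
      rcases List.mem_cons.1 hx with rfl | hx
      · exact hp
      · exact ih h x hx

theorem allE_adj {p : ℕ → ℕ → Bool} (h : allE p edges = true) (x y : Fin 30)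
    (hxy : H.Adj x y) : p x y = true :=
  allE_spec h _ (mem_edges x y hxy)

theorem val_lt (t c : ℕ) : val t c < 30 := Nat.mod_lt _ (by norm_num)

/-- The ternary operation `m`. -/
def opM (x y z : Fin 30) : Fin 30 := ⟨val (row (blk tTM x) y) z, val_lt _ _⟩

/-- The ternary operation `P`. -/
def opP (x y z : Fin 30) : Fin 30 := ⟨val (row (blk tTP x) y) z, val_lt _ _⟩

/-- The binary operation `X`. -/
def opX (x y : Fin 30) : Fin 30 := ⟨val (row tTX x) y, val_lt _ _⟩

/-- The binary operation `W`. -/
def opW (x y : Fin 30) : Fin 30 := ⟨val (row tTW x) y, val_lt _ _⟩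

theorem polyM : Poly3 H opM := by
  intro a a' b b' c c' h1 h2 h3
  have k1 := allE_adj chkM a a' h1
  simp only [force_eq] at k1
  have k2 := allE_adj k1 b b' h2
  have k3 := allE_adj k2 c c' h3
  exact k3

theorem polyP : Poly3 H opP := by
  intro a a' b b' c c' h1 h2 h3
  have k1 := allE_adj chkP a a' h1
  simp only [force_eq] at k1
  have k2 := allE_adj k1 b b' h2
  have k3 := allE_adj k2 c c' h3
  exact k3

theorem polyX {a a' b b' : Fin 30} (h1 : H.Adj a a') (h2 : H.Adj b b') :
    H.Adj (opX a b) (opX a' b') := by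
  have k1 := allE_adj chkX a a' h1
  simp only [force_eq] at k1
  exact allE_adj k1 b b' h2

theorem polyW {a a' b b' : Fin 30} (h1 : H.Adj a a') (h2 : H.Adj b b') :
    H.Adj (opW a b) (opW a' b') := by
  have k1 := allE_adj chkW a a' h1
  simp only [force_eq] at k1
  exact allE_adj k1 b b' h2

theorem polyWX {a a' b b' : Fin 30} (h1 : H.Adj a a') (h2 : H.Adj b b') :
    H.Adj (opW a b) (opX a' b') := by
  have k1 := allE_adj chkWX a a' h1
  simp only [force_eq] at k1
  exact allE_adj k1 b b' h2

theorem X_self (x : Fin 30) : opX x x = x := Fin.ext (lawB x x).1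

theorem W_self (x : Fin 30) : opW x x = x := Fin.ext (lawB x x).2.1

theorem W_comm (x y : Fin 30) : opW x y = opW y x := Fin.ext (lawB x y).2.2.1

theorem W_law (x y : Fin 30) : opW (opW x y) y = opW x y := Fin.ext (lawB x y).2.2.2.1

theorem X_law (x y : Fin 30) : opX (opX x y) y = opX x y := Fin.ext (lawB x y).2.2.2.2

theorem M_xxy (x y : Fin 30) : opM x x y = x := Fin.ext (lawM x y).1

theorem M_xyx (x y : Fin 30) : opM x y x = x := Fin.ext (lawM x y).2

theorem P_xyy (x y : Fin 30) : opP x y y = opM x y y := Fin.ext (lawP x y).1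

theorem P_xxy (x y : Fin 30) : opP x x y = opX x y := Fin.ext (lawP x y).2

end Pool.Agent.H93.PC
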