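import Pool.Agent.H93.PC.Defs

/-!
Polymorphisms preserve primitive positive definitions; the induced operations of a pp-construction.
-/

namespace Pool.Agent.H93.PC

/-- `f` is a ternary polymorphism of `G`. -/
def Poly3 {B : Type} (G : Digraph B) (f : B → B → B → B) : Prop :=
  ∀ a a' b b' c c', G.Adj a a' → G.Adj b b' → G.Adj c c' → G.Adj (f a b c) (f a' b' c')

theorem Poly3.holds {B : Type} {G : Digraph B} {f : B → B → B → B} (hf : Poly3 G f) :
    ∀ {n : ℕ} (φ : PP n) (u v w : Fin n → B), φ.Holds G u → φ.Holds G v → φ.Holds G w →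
      φ.Holds G (fun i => f (u i) (v i) (w i)) := by
  intro n φ
  induction φ with
  | eq i j => intro u v w h1 h2 h3; simp only [PP.Holds] at *; rw [h1, h2, h3]
  | edge i j => intro u v w h1 h2 h3; exact hf _ _ _ _ _ _ h1 h2 h3
  | conj φ ψ ih1 ih2 =>
    intro u v w h1 h2 h3
    exact ⟨ih1 u v w h1.1 h2.1 h3.1, ih2 u v w h1.2 h2.2 h3.2⟩
  | ex φ ih =>
    rintro u v w ⟨b1, h1⟩ ⟨b2, h2⟩ ⟨b3, h3⟩
    refine ⟨f b1 b2 b3, ?_⟩
    have := ih _ _ _ h1 h2 h3
    convert this using 1
    funext i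
    refine Fin.lastCases ?_ (fun j => ?_) i
    · simp
    · simp

theorem Poly3.ppPower {B : Type} {G : Digraph B} {f : B → B → B → B} (hf : Poly3 G f) {d : ℕ}
    (φ : PP (d + d)) :
    Poly3 (ppPower G d φ) (fun x y z i => f (x i) (y i) (z i)) := by
  intro a a' b b' c c' h1 h2 h3
  have := hf.holds φ _ _ _ h1 h2 h3
  show φ.Holds G _
  convert this using 1
  funext i
  refine Fin.addCases (fun j => ?_) (fun j => ?_) i
  · simp only [Fin.append_left]
  · simp only [Fin.append_right]

/-- The operation on `H` induced by an operation of `G` through a pp-construction. -/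
def hat {B V : Type} {d : ℕ} (h : V → Fin d → B) (g : (Fin d → B) → V) (f : B → B → B → B)
    (x y z : V) : V := g (fun i => f (h x i) (h y i) (h z i))

theorem Poly3.hat {B V : Type} {G : Digraph B} {H : Digraph V} {f : B → B → B → B}
    (hf : Poly3 G f) {d : ℕ} (φ : PP (d + d)) {h : V → Fin d → B} {g : (Fin d → B) → V}
    (hh : IsHom H (PC.ppPower G d φ) h) (hg : IsHom (PC.ppPower G d φ) H g) :
    Poly3 H (hat h g f) := by
  intro a a' b b' c c' h1 h2 h3
  exact hg _ _ (hf.ppPower φ _ _ _ _ _ _ (hh _ _ h1) (hh _ _ h2) (hh _ _ h3))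

end Pool.Agent.H93.PC
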